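import Pool.Agent.H97.ON.Far
import Pool.Graph.R_pool_sql_team_seeded_ab47071d.TH508.ON.Main

set_option autoImplicit false
set_option linter.unusedSimpArgs false

/-!
The loop O(n) model on the honeycomb lattice (brick-wall coordinates) with a boundary path,
`1 ≤ n ≤ 2`, at the critical point `x_c(n)`: the total weight of the paths from the apex of a wedge
of opening `60 k` degrees (`k = 1, …, 6`) to distance `N` decays polynomially, stays between
positive constants, or grows polynomially, according to the sign of the exponent predicted by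
SLE with parameter `κ(n)`.
-/

namespace Pool.Agent.Results.MP_4960b8_pr.WedgeTransitionOn

/-- Adjacency of the honeycomb lattice in brick-wall coordinates: horizontal neighbours of
`ℤ × ℤ` are adjacent, and `(a, b)`, `(a, b + 1)` are adjacent when `a + b` is even. -/
def Nb (p q : ℤ × ℤ) : Prop :=
  q - p = (1, 0) ∨ q - p = (-1, 0) ∨
  (q - p = (0, 1) ∧ Even (p.1 + p.2)) ∨
  (q - p = (0, -1) ∧ Even (q.1 + q.2))

/-- A loop of the lattice, as a set of edges: a closed walk `f` through `m ≥ 3` distinct vertices,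
written as an `m`-periodic function. -/
def IsLoop (c : Finset (Sym2 (ℤ × ℤ))) : Prop :=
  ∃ (m : ℕ) (f : ℤ → ℤ × ℤ), 3 ≤ m ∧ (∀ i j, f i = f j ↔ (m : ℤ) ∣ i - j) ∧
    (∀ i, Nb (f i) (f (i + 1))) ∧ ∀ e, e ∈ c ↔ ∃ i, e = s(f i, f (i + 1))

/-- `v` is a vertex of `c` -/
def On (v : ℤ × ℤ) (c : Finset (Sym2 (ℤ × ℤ))) : Prop := ∃ e ∈ c, v ∈ e

/-- The loop configurations of `U`: finite sets of pairwise vertex-disjoint loops with all their
vertices in `U`. -/
def LoopConf (U : Finset (ℤ × ℤ)) : Set (Finset (Finset (Sym2 (ℤ × ℤ)))) :=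
  {L | (∀ c ∈ L, IsLoop c ∧ ∀ v, On v c → v ∈ U) ∧
    ∀ c ∈ L, ∀ d ∈ L, c ≠ d → ∀ v, On v c → ¬ On v d}

/-- The weight `n ^ (number of loops) * x ^ (number of edges)`. -/
noncomputable def lweight (n x : ℝ) (L : Finset (Finset (Sym2 (ℤ × ℤ)))) : ℝ :=
  n ^ L.card * x ^ (∑ c ∈ L, c.card)

/-- The partition function of the loop O(n) model in `U`. -/
noncomputable def Z (n x : ℝ) (U : Finset (ℤ × ℤ)) : ℝ := ∑ᶠ L ∈ LoopConf U, lweight n x L

/-- Paths of the finite set `S` which start in the middle of the edge from `(0,0)` to `(1,0)`: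
`q.1 = [v_1, …, v_m]` are the visited vertices (distinct, in `S`), and `q.2 ∉ S` is the vertex at
the other end of the last edge, in whose middle the path stops; the first vertex of
`v_1, …, v_m, q.2` is `(1,0)`. (The path does not come back through the first edge.) -/
def Paths (S : Finset (ℤ × ℤ)) : Set (List (ℤ × ℤ) × (ℤ × ℤ)) :=
  {q | (q.1 ++ [q.2]).head? = some (1, 0) ∧ q.1.Nodup ∧ (∀ v ∈ q.1, v ∈ S) ∧
    (q.1 ++ [q.2]).IsChain Nb ∧ q.2 ∉ S ∧ (q.1.length = 1 → q.2 ≠ (0, 0))}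

/-- The weight of a path in the O(n) model in `S` (path weight, times the loops which avoid the
path), normalised by the partition function of the loops in `S`. -/
noncomputable def wt (n x : ℝ) (S : Finset (ℤ × ℤ)) (q : List (ℤ × ℤ) × (ℤ × ℤ)) : ℝ :=
  x ^ q.1.length * Z n x (S \ q.1.toFinset) / Z n x S

/-- Total normalised weight of the paths whose exit vertex satisfies `Q`. -/
noncomputable def R (n x : ℝ) (S : Finset (ℤ × ℤ)) (Q : ℤ × ℤ → Prop) : ℝ :=
  ∑ᶠ q ∈ {q | q ∈ Paths S ∧ Q q.2}, wt n x S q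

/-- The wedge of opening `60 k` degrees, `k = 1, …, 6`, with apex at the start; its lower side is
the half line `{v.2 = 0, v.1 ≤ 0}` (`k = 3`: half plane, `k = 6`: complement of the half line). -/
def Wedge (k : ℕ) (v : ℤ × ℤ) : Prop :=
  (v.2 = 0 → 1 ≤ v.1) ∧
  (1 ≤ v.2 → 4 ≤ k ∧ (k = 4 → 1 ≤ v.1 - v.2) ∧ (k = 5 → 2 ≤ v.1 + v.2)) ∧
  (k ≤ 2 → v.1 + v.2 ≤ 1) ∧ (k ≤ 1 → v.1 - v.2 ≤ 2)

/-- The half line which is the common side of all the wedges. -/
def Side (v : ℤ × ℤ) : Prop := v.2 = 0 ∧ v.1 ≤ 0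

/-- The hexagon of radius `N` centred at the apex. -/
def Hexagon (N : ℤ) (v : ℤ × ℤ) : Prop :=
  -N ≤ v.2 ∧ v.2 ≤ N ∧ -2 * N ≤ v.1 + v.2 ∧ v.1 + v.2 ≤ 2 * N + 1 ∧
    -2 * N + 1 ≤ v.1 - v.2 ∧ v.1 - v.2 ≤ 2 * N

/-- The critical point. -/
noncomputable def xc (n : ℝ) : ℝ := 1 / Real.sqrt (2 + Real.sqrt (2 - n))

/-- The SLE exponent of the far weight in the wedge of opening `60 k` degrees: with
`h = (6 - κ) / (2 κ)`, a boundary point on the far side at distance `N` has weight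
`N ^ (- h - 3 h / k)`, and there are of order `N` of them. -/
noncomputable def expo (κ : ℝ) (k : ℕ) : ℝ := 1 - (6 - κ) / (2 * κ) * (1 + 3 / k)

/-- `S` is the wedge of opening `60 k` degrees cut at distance `N`. -/
def IsCut (k : ℕ) (N : ℤ) (S : Finset (ℤ × ℤ)) : Prop :=
  1 ≤ N ∧ ∀ v, v ∈ S ↔ Wedge k v ∧ Hexagon N v

open H978R2.Hex (Adj)
open Pool.Agent.H97.ON Pool.Agent.H97.ON.Tr
open Pool.Agent.TH232.WX (Wg xPar om_x ok_x sJ sJ_gt)

/-! ### Translation -/

theorem isLoop_iff (c : Finset (Sym2 (ℤ × ℤ))) : IsLoop c ↔ TH508.ON.IsLoop c := by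
  constructor
  · rintro ⟨k, f, h1, h2, h3, h4⟩
    exact ⟨k, f, ⟨h1, h2, h3⟩, h4⟩
  · rintro ⟨k, f, ⟨h1, h2, h3⟩, h4⟩
    exact ⟨k, f, h1, h2, h3, h4⟩

theorem on_iff {v : ℤ × ℤ} {c : Finset (Sym2 (ℤ × ℤ))} : On v c ↔ v ∈ TH508.ON.verts c :=
  TH508.ON.mem_verts.symm

theorem loopConf_eq (U : Finset (ℤ × ℤ)) :
    LoopConf U = ↑(TH508.ON.fam (TH508.ON.loops U) TH508.ON.verts) := by
  ext L
  rw [Finset.mem_coe, TH508.ON.mem_fam]
  constructor
  · rintro ⟨h1, h2⟩
    refine ⟨fun c hc => ?_, fun c hc d hd hne => ?_⟩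
    · obtain ⟨h3, h4⟩ := h1 c hc
      exact TH508.ON.mem_loops.2 ⟨fun v hv => h4 v (on_iff.2 hv), (isLoop_iff c).1 h3⟩
    · rw [Finset.disjoint_left]
      intro v hv hv'
      exact h2 c hc d hd hne v (on_iff.2 hv) (on_iff.2 hv')
  · rintro ⟨h1, h2⟩
    refine ⟨fun c hc => ?_, fun c hc d hd hne v hv hv' => ?_⟩
    · obtain ⟨h3, h4⟩ := TH508.ON.mem_loops.1 (h1 hc)
      exact ⟨(isLoop_iff c).2 h4, fun v hv => h3 (on_iff.1 hv)⟩
    · exact Finset.disjoint_left.1 (h2 c hc d hd hne) (on_iff.1 hv) (on_iff.1 hv')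

theorem lweight_eq (n x : ℝ) (L : Finset (Finset (Sym2 (ℤ × ℤ)))) :
    lweight n x L = ∏ c ∈ L, TH508.ON.lw n x c := by
  unfold lweight TH508.ON.lw
  rw [Finset.prod_mul_distrib, Finset.prod_const, Finset.prod_pow_eq_pow_sum]

theorem Z_eq (n x : ℝ) (U : Finset (ℤ × ℤ)) : Z n x U = TH508.ON.ZL n x U := by
  unfold Z TH508.ON.ZL TH508.ON.gasZ
  rw [loopConf_eq, finsum_mem_coe_finset]
  exact Finset.sum_congr rfl fun L _ => lweight_eq n x L

theorem wt_eq (n x : ℝ) (S : Finset (ℤ × ℤ)) (q : List (ℤ × ℤ) × (ℤ × ℤ)) :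
    wt n x S q = TH508.ON.wt n x S q := by
  unfold wt TH508.ON.wt
  rw [Z_eq, Z_eq]

theorem R_eq {n x : ℝ} {S : Finset (ℤ × ℤ)} (h00 : ((0, 0) : ℤ × ℤ) ∉ S) (Q : ℤ × ℤ → Prop)
    [DecidablePred Q] : R n x S Q = XM n x S Q := by
  have h : R n x S Q = TH508.ON.mass n x S {v | Q v} := by
    unfold R TH508.ON.mass
    exact finsum_mem_congr rfl (fun q _ => wt_eq n x S q)
  rw [h, TH508.ON.mass_eq h00]
  rfl

theorem wedge_wg {k : ℕ} (hk : 1 ≤ k) (h4 : k ≤ 4) (v : ℤ × ℤ) : Wedge k v ↔ Wg (k + 2) v := by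
  unfold Wedge Wg
  omega

theorem wg_wedge {J k : ℕ} (hJ : 4 ≤ J) (hJ6 : J ≤ 6) (h : J ≤ k + 2) (v : ℤ × ℤ)
    (hv : Wg J v) : Wedge k v := by
  unfold Wg at hv
  unfold Wedge
  omega

instance (k : ℕ) : DecidablePred (Wedge k) := fun v => by unfold Wedge; infer_instance

instance : DecidablePred Side := fun v => by unfold Side; infer_instance

theorem zero_wedge (k : ℕ) : ¬ Wedge k (0, 0) := by
  unfold Wedge
  simp

theorem cut_zero {k : ℕ} {N : ℤ} {S : Finset (ℤ × ℤ)} (h : IsCut k N S) :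
    ((0, 0) : ℤ × ℤ) ∉ S := fun hh => zero_wedge k ((h.2 _).1 hh).1

theorem cut_eq {k : ℕ} (hk : 1 ≤ k) (h4 : k ≤ 4) {N : ℤ} {S : Finset (ℤ × ℤ)} (h : IsCut k N S) :
    S = fs (xPar (k + 2) N) := by
  ext v
  rw [h.2, mem_fs, om_x (k + 2) (by omega) (by omega) N h.1, wedge_wg hk h4]
  rfl

theorem cut_cc {k : ℕ} {N : ℤ} {S : Finset (ℤ × ℤ)} (h : IsCut k N S) : Cc S := by
  obtain ⟨hN, hS⟩ := h
  apply cc_of_rows
  intro v hv
  unfold FR FL
  rw [hS] at hv
  simp only [hS]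
  unfold Wedge Hexagon at *
  simp only
  by_cases h1 : v.2 ≤ N ∧ -N ≤ v.2 ∧ v.1 + v.2 ≤ 2 * N + 1 ∧ v.1 - v.2 ≤ 2 * N ∧
      (1 ≤ v.2 → 4 ≤ k) ∧ (k ≤ 2 → v.1 + v.2 ≤ 1) ∧ (k ≤ 1 → v.1 - v.2 ≤ 2)
  · right
    intro x hx hc
    apply hv
    omega
  · left
    intro x hx hc
    apply h1
    omega

/-! ### Parameters -/

theorem prm {n κ : ℝ} (h1 : 1 ≤ n) (h2 : n ≤ 2) (hκ : 8 / 3 ≤ κ) (hκ' : κ ≤ 4)
    (hn : n = -2 * Real.cos (4 * Real.pi / κ)) :
    Prm n (xc n) (Real.pi / 2 - Real.pi / κ) := by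
  have hpi := Real.pi_pos
  have hκ0 : 0 < κ := by linarith
  set t := Real.pi / 2 - Real.pi / κ with ht
  have hb1 : Real.pi / κ ≤ 3 * Real.pi / 8 := by
    rw [div_le_iff₀ hκ0]
    nlinarith
  have hb2 : Real.pi / 4 ≤ Real.pi / κ := by
    apply div_le_div_of_nonneg_left hpi.le hκ0 hκ'
  have e4 : 4 * t = 2 * Real.pi - 4 * Real.pi / κ := by rw [ht]; ring
  have hnt : n = -2 * Real.cos (4 * t) := by
    rw [hn, e4, Real.cos_two_pi_sub]
  have t1 : t ≤ Real.pi / 4 := by linarith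
  have t2 : Real.pi / 8 ≤ t := by linarith
  have t0 : Real.pi / 6 ≤ t := by
    by_contra hc
    push Not at hc
    have h3 : Real.cos (2 * Real.pi / 3) < Real.cos (4 * t) := by
      apply Real.cos_lt_cos_of_nonneg_of_le_pi <;> linarith
    have h4 : Real.cos (2 * Real.pi / 3) = -(1 / 2) := by
      have : 2 * Real.pi / 3 = Real.pi - Real.pi / 3 := by ring
      rw [this, Real.cos_pi_sub, Real.cos_pi_div_three]
    rw [h4] at h3
    linarith
  have hct : 0 < Real.cos t := Real.cos_pos_of_mem_Ioo ⟨by linarith, by linarith⟩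
  have hc2 : 0 ≤ Real.cos (2 * t) := Real.cos_nonneg_of_mem_Icc ⟨by linarith, by linarith⟩
  have hs1 : Real.sqrt (2 - n) = 2 * Real.cos (2 * t) := by
    have : 2 - n = (2 * Real.cos (2 * t)) ^ 2 := by
      rw [hnt, show 4 * t = 2 * (2 * t) by ring, Real.cos_two_mul (2 * t)]
      ring
    rw [this, Real.sqrt_sq (by linarith)]
  have hs2 : Real.sqrt (2 + Real.sqrt (2 - n)) = 2 * Real.cos t := by
    have : 2 + Real.sqrt (2 - n) = (2 * Real.cos t) ^ 2 := by
      rw [hs1, Real.cos_two_mul]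
      ring
    rw [this, Real.sqrt_sq (by linarith)]
  have hx : xc n = 1 / (2 * Real.cos t) := by
    unfold xc
    rw [hs2]
  have hc3 : 2 ≤ (2 * Real.cos t) ^ 2 := by
    have := Real.cos_two_mul t
    nlinarith
  refine ⟨h1, ?_, hnt, ?_, ?_, t0, t1⟩
  · rw [hx]; positivity
  · rw [hx]; field_simp
  · rw [hx, one_div, inv_pow, ← div_eq_mul_inv, div_le_one (by positivity)]
    linarith

theorem expo_eq {κ : ℝ} (hκ : 8 / 3 ≤ κ) {k : ℕ} (hk : 1 ≤ k) :
    expo κ k = 3 / (k * Real.pi) *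
      (((k : ℝ) + 3) * (Real.pi / 2 - Real.pi / κ) - Real.pi) := by
  unfold expo
  have hκ0 : κ ≠ 0 := by linarith
  have hk0 : (k : ℝ) ≠ 0 := by
    have : (1 : ℝ) ≤ k := by exact_mod_cast hk
    linarith
  have hpi := Real.pi_ne_zero
  field_simp
  ring

theorem sin5 (t : ℝ) : Real.sin (5 * t) = 2 * Real.cos t * Real.sin (4 * t) - Real.sin (3 * t) := by
  have a1 : 5 * t = 4 * t + t := by ring
  have a2 : 3 * t = 4 * t - t := by ring
  rw [a1, a2, Real.sin_add, Real.sin_sub]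
  ring

theorem alg3 {M s s3 c x : ℝ} (hc : c ≠ 0) (hs : s ≠ 0) (hx : x = 1 / (2 * c)) :
    M + x - (s3 + s) / (2 * c * s) = M - (1 - x * (2 * c * s - s3) / s) := by
  rw [hx]
  field_simp
  ring

/-! ### The three cases -/

theorem case_neg {n x t : ℝ} (h : Prm n x t) {k : ℕ} (hk : 1 ≤ k)
    (ht : ((k : ℝ) + 3) * t < Real.pi) :
    ∃ C θ : ℝ, 0 < C ∧ 0 < θ ∧ k ≤ 2 ∧ ∀ N : ℤ, 1 ≤ N →
      SN n x (k + 2) (xPar (k + 2) N) ≤ C * (N : ℝ) ^ (-θ) := by
  have hpi := Real.pi_pos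
  have h0 := h.t0
  have hk2 : k ≤ 2 := by
    by_contra hc
    push Not at hc
    have : (3 : ℝ) ≤ k := by exact_mod_cast hc
    nlinarith
  have hk1 : (1 : ℝ) ≤ k := by exact_mod_cast hk
  set ψ := Real.pi / ((k : ℝ) + 3) with hψ
  have hψ1 : (((k + 2 : ℕ) : ℝ) + 1) * ψ = Real.pi := by
    rw [hψ]
    push_cast
    field_simp
    ring
  have hlt : t < ψ := by
    rw [hψ, lt_div_iff₀ (by linarith)]
    linarith
  obtain ⟨C, hC, hd⟩ := decay h (J := k + 2) (by omega) (by omega) hψ1 hlt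
  obtain ⟨hψ0, hψ2, hcψ, hsψ, hr⟩ := angles h (J := k + 2) (by omega) hψ1
  have hr1 : 1 < rr t ψ := by
    unfold rr
    rw [one_lt_div hcψ]
    exact Real.cos_lt_cos_of_nonneg_of_le_pi_div_two h.tpos.le hψ2.le hlt
  refine ⟨C, Real.log (rr t ψ ^ 2) / Real.log (sJ (k + 2)), hC, ?_, hk2, hd⟩
  apply div_pos
  · apply Real.log_pos
    nlinarith
  · exact Real.log_pos (sJ_gt _)

theorem case_pos {n x t : ℝ} (h : Prm n x t) {k : ℕ} (hk : 1 ≤ k) 
    (ht : Real.pi < ((k : ℝ) + 3) * t) :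
    ∃ c θ : ℝ, 0 < c ∧ 0 < θ ∧ ∃ J : ℕ, 4 ≤ J ∧ J ≤ 6 ∧ J ≤ k + 2 ∧ ∀ N : ℤ, 1 ≤ N →
      c * (N : ℝ) ^ θ ≤ SN n x J (xPar J N) := by
  have hpi := Real.pi_pos
  have h0 := h.t0
  have h1 := h.t1
  have key : ∃ J : ℕ, 4 ≤ J ∧ J ≤ 6 ∧ J ≤ k + 2 ∧ (J : ℝ) * t ≤ Real.pi ∧
      Real.pi < ((J : ℝ) + 1) * t := by
    by_cases c5 : Real.pi < 5 * t
    · refine ⟨4, le_rfl, by norm_num, ?_, by push_cast; linarith, by push_cast; linarith⟩
      by_contra hc
      have : k ≤ 1 := by omega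
      have : (k : ℝ) ≤ 1 := by exact_mod_cast this
      nlinarith
    · push Not at c5
      by_cases c6 : Real.pi < 6 * t
      · refine ⟨5, by norm_num, by norm_num, ?_, by push_cast; linarith, by push_cast; linarith⟩
        by_contra hc
        have : k ≤ 2 := by omega
        have : (k : ℝ) ≤ 2 := by exact_mod_cast this
        nlinarith
      · push Not at c6
        refine ⟨6, by norm_num, by norm_num, ?_, by push_cast; linarith, by push_cast; linarith⟩
        by_contra hc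
        have : k ≤ 3 := by omega
        have : (k : ℝ) ≤ 3 := by exact_mod_cast this
        nlinarith
  obtain ⟨J, hJ, hJ6, hJk, hJt, hJt1⟩ := key
  have hJ4 : (4 : ℝ) ≤ J := by exact_mod_cast hJ
  set ψ := Real.pi / ((J : ℝ) + 1) with hψ
  have hψ1 : ((J : ℝ) + 1) * ψ = Real.pi := by
    rw [hψ]
    field_simp
  have hlt : ψ < t := by
    rw [hψ, div_lt_iff₀ (by linarith)]
    linarith
  obtain ⟨c, hc, hd⟩ := growth_J h hJ hJ6 hψ1 hlt hJt
  obtain ⟨hψ0, hψ2, hcψ, hsψ, hr⟩ := angles h (J := J) (by omega) hψ1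
  have hr1 : rr t ψ < 1 := by
    unfold rr
    rw [div_lt_one hcψ]
    exact Real.cos_lt_cos_of_nonneg_of_le_pi_div_two hψ0.le (by linarith) hlt
  refine ⟨c, Real.log (1 / rr t ψ ^ 2) / Real.log (sJ J), hc, ?_, J, hJ, hJ6, hJk, hd⟩
  apply div_pos
  · apply Real.log_pos
    rw [lt_div_iff₀ (by positivity)]
    nlinarith
  · exact Real.log_pos (sJ_gt _)

/-- **Theorem.** Let `1 ≤ n ≤ 2`, `x = x_c(n)`, `κ ∈ [8/3, 4]` with `n = -2 cos (4 π / κ)` (so
`κ ∈ [3, 4]`), and `1 ≤ k ≤ 6`. The far weight of the wedge of opening `60 k` degrees cut at distance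
`N` decays polynomially if `expo κ k < 0` (that is `k = 1, n < 2` or `k = 2, n < (1 + √5) / 2`), is
bounded above and below if `expo κ k = 0` (`k = 1, n = 2`; `k = 2, n = (1 + √5) / 2`; `k = 3, n = 1`)
and grows polynomially if `expo κ k > 0`. In the first case the weights of the two sides have
explicit limits. -/
theorem result (n κ : ℝ) (h1 : 1 ≤ n) (h2 : n ≤ 2) (hκ : 8 / 3 ≤ κ) (hκ' : κ ≤ 4)
    (hn : n = -2 * Real.cos (4 * Real.pi / κ)) (k : ℕ) (hk : 1 ≤ k) (hk' : k ≤ 6) :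
    -- negative exponent: polynomial decay of the far weight, and limits of the side weights
    (expo κ k < 0 → ∃ C θ : ℝ, 0 < C ∧ 0 < θ ∧ ∀ (N : ℤ) (S : Finset (ℤ × ℤ)), IsCut k N S →
      R n (xc n) S (Wedge k) ≤ C * (N : ℝ) ^ (-θ) ∧
      (k = 1 → ∀ t : ℝ, t = Real.pi / 2 - Real.pi / κ →
        |R n (xc n) S Side - Real.sin t / (2 * Real.cos t * Real.sin (4 * t))| ≤
          C * (N : ℝ) ^ (-θ) ∧
        |R n (xc n) S (fun z => ¬ Wedge k z ∧ ¬ Side z) -
          (Real.sin (3 * t) + Real.sin (4 * t)) / (2 * Real.cos t * Real.sin (4 * t))| ≤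
          C * (N : ℝ) ^ (-θ)) ∧
      (k = 2 → ∀ t : ℝ, t = Real.pi / 2 - Real.pi / κ →
        |R n (xc n) S Side - Real.sin t / Real.sin (5 * t)| ≤ C * (N : ℝ) ^ (-θ) ∧
        |R n (xc n) S (fun z => ¬ Wedge k z ∧ ¬ Side z) -
          Real.sin (4 * t) / Real.sin (5 * t)| ≤ C * (N : ℝ) ^ (-θ))) ∧
    -- exponent zero: the far weight stays between positive constants
    (expo κ k = 0 → ∃ c C : ℝ, 0 < c ∧ ∀ (N : ℤ) (S : Finset (ℤ × ℤ)), IsCut k N S →
      c ≤ R n (xc n) S (Wedge k) ∧ R n (xc n) S (Wedge k) ≤ C) ∧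
    -- positive exponent: polynomial growth of the far weight
    (0 < expo κ k → ∃ c θ : ℝ, 0 < c ∧ 0 < θ ∧ ∀ (N : ℤ) (S : Finset (ℤ × ℤ)), IsCut k N S →
      c * (N : ℝ) ^ θ ≤ R n (xc n) S (Wedge k)) := by
  have hP := prm h1 h2 hκ hκ' hn
  set t := Real.pi / 2 - Real.pi / κ with htdef
  set x := xc n with hxdef
  have hpi := Real.pi_pos
  have hk1 : (1 : ℝ) ≤ k := by exact_mod_cast hk
  have hcf : 0 < 3 / ((k : ℝ) * Real.pi) := by positivity
  have hexp := expo_eq hκ hk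
  rw [← htdef] at hexp
  refine ⟨?_, ?_, ?_⟩
  · intro hneg
    rw [hexp] at hneg
    have ht : ((k : ℝ) + 3) * t < Real.pi := by
      by_contra hc
      push Not at hc
      have : 0 ≤ 3 / ((k : ℝ) * Real.pi) * (((k : ℝ) + 3) * t - Real.pi) :=
        mul_nonneg hcf.le (by linarith)
      linarith
    obtain ⟨C, θ, hC, hθ, hk2, hd⟩ := case_neg hP hk ht
    have hsin : 0 < Real.sin (((k : ℝ) + 3) * t) :=
      Real.sin_pos_of_pos_of_lt_pi (mul_pos (by linarith) hP.tpos) ht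
    have hs1 : Real.sin (((k : ℝ) + 3) * t) ≤ 1 := Real.sin_le_one _
    refine ⟨C / Real.sin (((k : ℝ) + 3) * t), θ, by positivity, hθ, ?_⟩
    intro N S hS
    have hN := hS.1
    have h00 := cut_zero hS
    have hSe := cut_eq hk (by omega) hS
    have hd' := hd N hN
    have hfar : R n x S (Wedge k) = SN n x (k + 2) (xPar (k + 2) N) := by
      rw [R_eq h00, far_eq (by omega) (by omega) hN, hSe]
      unfold XM
      refine Finset.sum_congr ?_ (fun _ _ => rfl)
      exact Finset.filter_congr fun l _ => wedge_wg hk (by omega) _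
    have hNp : 0 ≤ C * (N : ℝ) ^ (-θ) := by
      have : (1 : ℝ) ≤ N := by exact_mod_cast hN
      positivity
    have hdiv : SN n x (k + 2) (xPar (k + 2) N) / Real.sin (((k : ℝ) + 3) * t) ≤
        C / Real.sin (((k : ℝ) + 3) * t) * (N : ℝ) ^ (-θ) := by
      rw [div_mul_eq_mul_div]
      exact div_le_div_of_nonneg_right hd' hsin.le
    refine ⟨?_, ?_, ?_⟩
    · rw [hfar]
      refine le_trans ?_ hdiv
      rw [le_div_iff₀ hsin]
      have := SN_nonneg hP (k + 2) (xPar (k + 2) N)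
      nlinarith
    · intro hk1' t' ht'
      subst hk1'
      subst ht'
      have e4 : (((1 : ℕ) : ℝ) + 3) * t = 4 * t := by push_cast; ring
      rw [e4] at hdiv hsin ⊢
      obtain ⟨s1, s2⟩ := sides3 hP hN hsin
      have hxt := hP.hxt
      have hct := hP.cos_pos
      have hxe : x = 1 / (2 * Real.cos t) := by
        field_simp
        linarith
      constructor
      · rw [R_eq h00, hSe, ← low_eq (J := 1 + 2) (by omega) (by omega) hN Side (fun z => Iff.rfl)]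
        refine le_trans (le_of_eq ?_) (s1.trans hdiv)
        congr 2
        rw [hxe]
        field_simp
      · rw [R_eq h00, hSe, ← up_eq3 hP hN (fun z => ¬ Wedge 1 z ∧ ¬ Side z)
          (fun z => by rw [wedge_wg (k := 1) (by omega) (by omega)]; rfl)]
        refine le_trans (le_of_eq ?_) (s2.trans hdiv)
        rw [sin5]
        exact congrArg abs (alg3 hct.ne' hsin.ne' hxe)
    · intro hk2' t' ht'
      subst hk2'
      subst ht'
      have e5 : (((2 : ℕ) : ℝ) + 3) * t = 5 * t := by push_cast; ring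
      rw [e5] at hdiv hsin ⊢
      obtain ⟨s1, s2⟩ := sides4 hP hN hsin
      constructor
      · rw [R_eq h00, hSe, ← low_eq (J := 2 + 2) (by omega) (by omega) hN Side (fun z => Iff.rfl)]
        exact s1.trans hdiv
      · rw [R_eq h00, hSe, ← up_eq (J := 2 + 2) (by omega) (by omega) hN
          (fun z => ¬ Wedge 2 z ∧ ¬ Side z)
          (fun z => by rw [wedge_wg (k := 2) (by omega) (by omega)]; rfl)]
        exact s2.trans hdiv
  · intro hz
    rw [hexp] at hz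
    have ht : ((k : ℝ) + 3) * t = Real.pi := by
      rcases mul_eq_zero.1 hz with h3 | h3
      · exact absurd h3 hcf.ne'
      · linarith
    have hk3 : k ≤ 3 := by
      by_contra hc
      push Not at hc
      have : (4 : ℝ) ≤ k := by exact_mod_cast hc
      have := hP.t0
      nlinarith
    have hE : 0 < EJ x t (k + 2) := by
      rcases Nat.lt_or_ge k 2 with h3 | h3
      · have : k = 1 := by omega
        subst this
        rw [EJ_three hP]
        norm_num
      · exact EJ_pos hP (by omega) (by omega)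
    refine ⟨EJ x t (k + 2), EJ x t (k + 2) / Real.sin t, hE, ?_⟩
    intro N S hS
    have hN := hS.1
    have h00 := cut_zero hS
    have hSe := cut_eq hk (by omega) hS
    have hfar : R n x S (Wedge k) = SN n x (k + 2) (xPar (k + 2) N) := by
      rw [R_eq h00, far_eq (by omega) (by omega) hN, hSe]
      unfold XM
      refine Finset.sum_congr ?_ (fun _ _ => rfl)
      exact Finset.filter_congr fun l _ => wedge_wg hk (by omega) _
    obtain ⟨c1, c2⟩ := critical hP (J := k + 2) (by omega) (by omega)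
      (by push_cast; linarith) N hN
    rw [hfar]
    refine ⟨c1, ?_⟩
    rw [le_div_iff₀ hP.sin_pos]
    linarith
  · intro hpos
    rw [hexp] at hpos
    have ht : Real.pi < ((k : ℝ) + 3) * t := by
      by_contra hc
      push Not at hc
      have : 3 / ((k : ℝ) * Real.pi) * (((k : ℝ) + 3) * t - Real.pi) ≤ 0 :=
        mul_nonpos_of_nonneg_of_nonpos hcf.le (by linarith)
      linarith
    obtain ⟨c, θ, hc, hθ, J, hJ, hJ6, hJk, hd⟩ := case_pos hP hk ht
    refine ⟨c, θ, hc, hθ, ?_⟩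
    intro N S hS
    have hN := hS.1
    refine (hd N hN).trans ?_
    rw [R_eq (cut_zero hS)]
    apply far_mono hP (by omega) hJ6 hN (cut_cc hS) (cut_zero hS)
    · intro v hv hh
      exact (hS.2 v).2 ⟨wg_wedge hJ hJ6 hJk v hv, hh⟩
    · intro v hv
      exact ((hS.2 v).1 hv).2
    · intro z hz
      exact wg_wedge hJ hJ6 hJk z hz

end Pool.Agent.Results.MP_4960b8_pr.WedgeTransitionOn
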